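import Mathlib

namespace Pool.Agent.Results.MP_23ff89_al.NotTriple

open Matrix

variable {K : Type} [Field K] {n : ℕ}

/-- irreducible tridiagonal -/
def ITri (M : Matrix (Fin n) (Fin n) K) : Prop :=
  ∀ i j : Fin n, (i.val + 1 < j.val ∨ j.val + 1 < i.val → M i j = 0) ∧
    (i.val + 1 = j.val ∨ j.val + 1 = i.val → M i j ≠ 0)

/-- the matrix of `X` in the basis formed by the columns of `P` -/
def inB (P : GL (Fin n) K) (X : Matrix (Fin n) (Fin n) K) : Matrix (Fin n) (Fin n) K :=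
  (P⁻¹).val * X * P.val

def LeonardPair (X Y : Matrix (Fin n) (Fin n) K) : Prop :=
  (∃ P, (inB P X).IsDiag ∧ ITri (inB P Y)) ∧ (∃ P, (inB P Y).IsDiag ∧ ITri (inB P X))

def LeonardTriple (X Y Z : Matrix (Fin n) (Fin n) K) : Prop :=
  (∃ P, (inB P X).IsDiag ∧ ITri (inB P Y) ∧ ITri (inB P Z)) ∧
  (∃ P, (inB P Y).IsDiag ∧ ITri (inB P X) ∧ ITri (inB P Z)) ∧
  (∃ P, (inB P Z).IsDiag ∧ ITri (inB P X) ∧ ITri (inB P Y))

def ch (P Q X Y : Matrix (Fin 5) (Fin 5) ℚ) : Prop :=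
  P * Q = 1 ∧ Q * P = 1 ∧ (∀ i j, i ≠ j → (Q * X * P) i j = 0) ∧ ∀ i j : Fin 5,
    (i.val + 1 < j.val ∨ j.val + 1 < i.val → (Q * Y * P) i j = 0) ∧
    (i.val + 1 = j.val ∨ j.val + 1 = i.val → (Q * Y * P) i j ≠ 0)

theorem half [CharZero K] {P Q X Y : Matrix (Fin 5) (Fin 5) ℚ} (h : ch P Q X Y) :
    ∃ g : GL (Fin 5) K, (inB g (X.map (algebraMap ℚ K))).IsDiag ∧
      ITri (inB g (Y.map (algebraMap ℚ K))) := by
  obtain ⟨h1, h2, h3, h4⟩ := h
  have e : ∀ M N : Matrix (Fin 5) (Fin 5) ℚ, (M * N).map (algebraMap ℚ K) =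
      M.map (algebraMap ℚ K) * N.map (algebraMap ℚ K) := fun M N => Matrix.map_mul
  let g : GL (Fin 5) K := ⟨P.map (algebraMap ℚ K), Q.map (algebraMap ℚ K),
    by rw [← e, h1]; simp, by rw [← e, h2]; simp⟩
  have k : ∀ Z : Matrix (Fin 5) (Fin 5) ℚ, inB g (Z.map (algebraMap ℚ K)) =
      (Q * Z * P).map (algebraMap ℚ K) := fun Z => by
    rw [e, e]; rfl
  refine ⟨g, ?_, ?_⟩
  · intro i j hij
    rw [k, Matrix.map_apply, h3 i j hij, map_zero]
  · intro i j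
    rw [k, Matrix.map_apply]
    refine ⟨fun h => by rw [(h4 i j).1 h, map_zero], fun h => ?_⟩
    exact (map_ne_zero _).2 ((h4 i j).2 h)

def A : Matrix (Fin 5) (Fin 5) ℚ :=
  !![4, 0, 0, 0, 0; 0, 2, 0, 0, 0; 0, 0, 0, 0, 0; 0, 0, 0, -2, 0; 0, 0, 0, 0, -4]
def B : Matrix (Fin 5) (Fin 5) ℚ :=
  !![20, 12, 0, 0, 0; -3, 10, 9, 0, 0; 0, -6, 0, 6, 0; 0, 0, -9, -10, 3; 0, 0, 0, -12, -20]
def C : Matrix (Fin 5) (Fin 5) ℚ :=
  !![0, 0, 0, 4, 0; 0, 0, 3, 0, 1; 0, 2, 0, 2, 0; 1, 0, 3, 0, 0; 0, 4, 0, 0, 0]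
def S : Matrix (Fin 5) (Fin 5) ℚ :=
  !![1, 0, 0, 0, 0; 0, 0, 0, 1, 0; 0, 0, 1, 0, 0; 0, 1, 0, 0, 0; 0, 0, 0, 0, 1]
def PB : Matrix (Fin 5) (Fin 5) ℚ :=
  !![81, 27, 27, 3, 1; -27, -27, -45, -7, -3; 9, 15, 59, 15, 9; -3, -7, -45, -27, -27;
    1, 3, 27, 27, 81]
def QB : Matrix (Fin 5) (Fin 5) ℚ :=
  !![81/4096, 27/1024, 27/2048, 3/1024, 1/4096; -27/1024, -27/256, -45/512, -7/256, -3/1024;
    9/2048, 15/512, 59/1024, 15/512, 9/2048; -3/1024, -7/256, -45/512, -27/256, -27/1024;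
    1/4096, 3/1024, 27/2048, 27/1024, 81/4096]
def PC : Matrix (Fin 5) (Fin 5) ℚ :=
  !![1, -2, 3, -2, 1; 1, -1, 0, 1, -1; 1, 0, -1, 0, 1; 1, 1, 0, -1, -1; 1, 2, 3, 2, 1]
def QC : Matrix (Fin 5) (Fin 5) ℚ :=
  !![1/16, 1/4, 3/8, 1/4, 1/16; -1/8, -1/4, 0, 1/4, 1/8; 1/8, 0, -1/4, 0, 1/8;
    -1/8, 1/4, 0, -1/4, 1/8; 1/16, -1/4, 3/8, -1/4, 1/16]

theorem c1 : ch 1 1 A B := by unfold ch; decide +kernel
theorem c2 : ch PB QB B A := by unfold ch; decide +kernel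
theorem c3 : ch S S A C := by unfold ch; decide +kernel
theorem c4 : ch PC QC C A := by unfold ch; decide +kernel
theorem c5 : ch (PB * S) (S * QB) B C := by unfold ch; decide +kernel
theorem c6 : ch PC QC C B := by unfold ch; decide +kernel

theorem pattern {X : Matrix (Fin n) (Fin n) K} (hX : X.IsDiag)
    (hi : ∀ i j, X i i = X j j → i = j) (g : GL (Fin n) K) (hg : (inB g X).IsDiag) :
    ∃ σ : Equiv.Perm (Fin n), ∀ Y i j, inB g Y i j = 0 ↔ Y (σ i) (σ j) = 0 := by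
  have hm : ∀ Y, g.val * inB g Y = Y * g.val := fun Y => by
    unfold inB
    rw [← Matrix.mul_assoc, ← Matrix.mul_assoc, ← Units.val_mul, mul_inv_cancel, Units.val_one,
      Matrix.one_mul]
  have hd : g.val.det ≠ 0 := (Matrix.isUnit_iff_isUnit_det _).1 g.isUnit |>.ne_zero
  rw [Matrix.det_apply] at hd
  obtain ⟨σ, -, hσ⟩ := Finset.exists_ne_zero_of_sum_ne_zero hd
  have hp : ∀ i, g.val (σ i) i ≠ 0 := fun i h0 => hσ (by
    rw [Finset.prod_eq_zero (f := fun k => g.val (σ k) k) (Finset.mem_univ i) h0, smul_zero])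
  have ent : ∀ a b, g.val a b * inB g X b b = X a a * g.val a b := fun a b => by
    have := congrFun (congrFun (hm X) a) b
    rw [Matrix.mul_apply, Matrix.mul_apply, Finset.sum_eq_single b, Finset.sum_eq_single a] at this
    · exact this
    · intro c _ hc; rw [hX (Ne.symm hc), zero_mul]
    · simp
    · intro c _ hc; rw [hg hc, mul_zero]
    · simp
  have hz : ∀ a b, a ≠ σ b → g.val a b = 0 := fun a b hab => by
    by_contra h0
    apply hab
    apply hi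
    have e1 := ent a b
    have e2 := ent (σ b) b
    rw [mul_comm] at e1 e2
    rw [← mul_right_cancel₀ h0 e1, mul_right_cancel₀ (hp b) e2]
  refine ⟨σ, fun Y i j => ?_⟩
  have := congrFun (congrFun (hm Y) (σ i)) j
  rw [Matrix.mul_apply, Matrix.mul_apply, Finset.sum_eq_single i, Finset.sum_eq_single (σ j)]
    at this
  · constructor
    · intro h
      rw [h, mul_zero] at this
      exact (mul_eq_zero.1 this.symm).resolve_right (hp j)
    · intro h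
      rw [h, zero_mul] at this
      exact (mul_eq_zero.1 this).resolve_left (hp i)
  · intro c _ hc; rw [hz c j hc, mul_zero]
  · simp
  · intro c _ hc; rw [hz (σ i) c (fun h => hc (σ.injective h).symm), zero_mul]
  · simp

theorem result (K : Type) [Field K] [CharZero K] :
    ∃ X Y Z : Matrix (Fin 5) (Fin 5) K,
      LeonardPair X Y ∧ LeonardPair X Z ∧ LeonardPair Y Z ∧ ¬ LeonardTriple X Y Z := by
  refine ⟨A.map (algebraMap ℚ K), B.map (algebraMap ℚ K), C.map (algebraMap ℚ K),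
    ⟨half c1, half c2⟩, ⟨half c3, half c4⟩, ⟨half c5, half c6⟩, ?_⟩
  rintro ⟨⟨g, h1, h2, h3⟩, -⟩
  have a1 : ∀ i j, i ≠ j → A i j = 0 := by decide +kernel
  have a2 : ∀ i j, A i i = A j j → i = j := by decide +kernel
  obtain ⟨σ, hσ⟩ := pattern (X := A.map (algebraMap ℚ K))
    (fun i j h => by
      show algebraMap ℚ K (A i j) = 0
      rw [a1 i j h, map_zero])
    (fun i j h => a2 i j ((algebraMap ℚ K).injective h)) g h1
  have hb : ¬ inB g (B.map (algebraMap ℚ K)) (σ.symm 0) (σ.symm 1) = 0 := by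
    rw [hσ]; simp [B]
  have hc : inB g (C.map (algebraMap ℚ K)) (σ.symm 0) (σ.symm 1) = 0 := by
    rw [hσ]; simp [C]
  have hne : (σ.symm 0).val ≠ (σ.symm 1).val := fun h => by
    have := σ.symm.injective (Fin.ext h)
    simp at this
  have p1 := (h2 (σ.symm 0) (σ.symm 1)).1
  have p2 := (h3 (σ.symm 0) (σ.symm 1)).2
  by_cases h : (σ.symm 0).val + 1 = (σ.symm 1).val ∨ (σ.symm 1).val + 1 = (σ.symm 0).val
  · exact p2 h hc
  · exact hb (p1 (by omega))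

end Pool.Agent.Results.MP_23ff89_al.NotTriple
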